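import Pool.Agent.Helper51.CX.St

set_option autoImplicit false

namespace Pool.Agent.Helper51.CX

theorem hBDD' (hGAP : StGAP) : StBDD := by
  intro K _ _ _ j h1 h2 d
  obtain ⟨hp, hw, he⟩ := pwe_le (K := K) j h2 d
  obtain ⟨ha, hb⟩ := hGAP K j h1 h2 d
  obtain ⟨l1, l2⟩ := la_bds (K := K) j h1 h2
  have l0 : (la j : K) ≠ 0 := by
    intro h; rw [h] at l1; linarith
  have g1 : L j d = 0 → L (ga j) d = 0 → 10 ^ 40 * ww j d + 10 ^ 20 * pp j d - el j d = 0 := by
    intro x y
    rw [x, y, sub_zero] at ha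
    exact (mul_eq_zero.1 ha.symm).resolve_left l0
  have g2 : L j d = 0 → L (gb j) d = 0 → -(10 ^ 40 * ww j d) + 10 ^ 20 * pp j d - el j d = 0 := by
    intro x y
    rw [x, y, sub_zero] at hb
    exact (mul_eq_zero.1 hb.symm).resolve_left l0
  refine ⟨fun x => ?_, fun x y => ?_, fun x y => ?_, fun x y z => ?_, hw, hp, he, FF_d0 j d, FF_d1 j d⟩
  · obtain ⟨b1, b2, -, -, -, -, -, b8, b9⟩ := bds (K := K) j h2
    have e1 : 10 ^ 60 * d 5 = -(10 ^ 40 * ((qx j : K) * d 0 + (qy j : K) * d 1)) -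
        (la j : K) * (10 ^ 20 * pp j d - el j d) := by
      have : L j d = 10 ^ 60 * d 5 + 10 ^ 40 * ((qx j : K) * d 0 + (qy j : K) * d 1) +
        (la j : K) * (10 ^ 20 * pp j d - el j d) := rfl
      rw [x] at this
      linarith
    have e2 : |(qx j : K) * d 0 + (qy j : K) * d 1| ≤ 1707 * nn d := by
      have f1 : |(qx j : K) * d 0| ≤ 1707 * |d 0| := by
        rw [abs_mul]; exact mul_le_mul_of_nonneg_right b1 (abs_nonneg _)
      have f2 : |(qy j : K) * d 1| ≤ 1707 * |d 1| := by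
        rw [abs_mul]; exact mul_le_mul_of_nonneg_right b2 (abs_nonneg _)
      have f3 := abs_add_le ((qx j : K) * d 0) ((qy j : K) * d 1)
      simp only [nn]; linarith
    have e3 : |10 ^ 20 * pp j d - el j d| ≤ 10 ^ 20 * (63 * nn d) + mm d := by
      have f3 := abs_sub (10 ^ 20 * pp j d) (el j d)
      rw [abs_mul, abs_of_nonneg (by positivity : (0 : K) ≤ 10 ^ 20)] at f3
      linarith
    have e4 : |(la j : K) * (10 ^ 20 * pp j d - el j d)| ≤ 3 * (10 ^ 20 * (63 * nn d) + mm d) := by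
      rw [abs_mul]
      have f1 : |(la j : K)| ≤ 3 := by rw [abs_of_nonneg b8]; exact b9
      exact mul_le_mul f1 e3 (abs_nonneg _) (by norm_num)
    have e5 : |10 ^ 60 * d 5| ≤ 10 ^ 40 * (1707 * nn d) + 3 * (10 ^ 20 * (63 * nn d) + mm d) := by
      rw [e1]
      have f1 := abs_sub (-(10 ^ 40 * ((qx j : K) * d 0 + (qy j : K) * d 1)))
        ((la j : K) * (10 ^ 20 * pp j d - el j d))
      rw [abs_neg, abs_mul, abs_of_nonneg (by positivity : (0 : K) ≤ 10 ^ 40)] at f1
      have f2 := mul_le_mul_of_nonneg_left e2 (by positivity : (0 : K) ≤ 10 ^ 40)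
      linarith
    rw [abs_mul, abs_of_nonneg (by positivity : (0 : K) ≤ 10 ^ 60)] at e5
    have n0 := nn_nonneg d
    have m0 := mm_nonneg d
    linarith
  · have := g1 x y
    have e : 10 ^ 20 * pp j d - el j d = -(10 ^ 40 * ww j d) := by linarith
    rw [e, abs_neg, abs_mul, abs_of_nonneg (by positivity : (0 : K) ≤ 10 ^ 40)]
  · have := g2 x y
    have e : 10 ^ 20 * pp j d - el j d = 10 ^ 40 * ww j d := by linarith
    rw [e, abs_mul, abs_of_nonneg (by positivity : (0 : K) ≤ 10 ^ 40)]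
  · have a1 := g1 x y
    have a2 := g2 x z
    constructor
    · linarith
    · linarith

end Pool.Agent.Helper51.CX
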