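import Pool.Agent.Helper42.CX.M_NEAR
import Pool.Agent.Helper10.CX.M_POL
import Pool.Agent.Helper33.CX.M_GAP
import Pool.Agent.Helper36.CX.M_BDP
import Pool.Agent.Helper51.CX.M_BDD
import Pool.Agent.Helper2.CX.M_APP
import Pool.Agent.Helper95.CX.M_CRA
import Pool.Agent.Helper75.CX.M_TRA
import Pool.Agent.Helper16.CX.M_RA
import Pool.Agent.Helper98.CX.M_RF
import Pool.Agent.Helper78.CX.M_RC
import Pool.Agent.Helper61.CX.M_RD
import Pool.Agent.Helper3.CX.M_LA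
import Pool.Agent.Helper2.CX.M_B1M
import Pool.Agent.Helper29.CX.M_B1Y
import Pool.Agent.Helper22.CX.M_B2
import Pool.Agent.Helper70.CX.M_B3
import Pool.Agent.Helper39.CX.M_B4
import Pool.Agent.Helper60.CX.M_LB
import Pool.Agent.Helper24.CX.M_C1
import Pool.Agent.Helper43.CX.M_C2M
import Pool.Agent.Helper31.CX.M_C2Y
import Pool.Agent.Helper53.CXD.M_LC
import Pool.Agent.Helper38.CX.M_D1
import Pool.Agent.Helper15.CX.M_D2
import Pool.Agent.Helper57.CX.M_D3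
import Pool.Agent.Helper73.CX.M_LD
import Pool.Agent.Helper34.CX.M_MAIN

/-!
# Project CX (MP_a41ee4_co): assembly
-/

set_option autoImplicit false

namespace Pool.Agent.Helper51.CX

theorem hGAP : StGAP := Pool.Agent.Helper33.CX.hGAP

theorem hBDP : StBDP := Pool.Agent.Helper36.CX.hBDP hGAP

theorem hBDD : StBDD := hBDD' hGAP

theorem hTRA : StTRA := Pool.Agent.Helper75.CX.hTRA Pool.Agent.Helper2.CX.hAPP

theorem hCRA : StCRA := Pool.Agent.Helper95.CX.hCRA Pool.Agent.Helper2.CX.hAPP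

theorem hLA : StLA := Pool.Agent.Helper3.CX.hLA Pool.Agent.Helper16.CX.hRA hGAP

theorem hLB : StLB :=
  Pool.Agent.Helper60.CX.hLB Pool.Agent.Helper98.CX.hRF (Pool.Agent.Helper2.CX.hB1M hTRA hBDP hBDD)
    (Pool.Agent.Helper29.CX.hB1Y hBDP hBDD) (Pool.Agent.Helper22.CX.hB2 hTRA hBDP)
    (Pool.Agent.Helper70.CX.hB3 hCRA hBDP hBDD) (Pool.Agent.Helper39.CX.hB4 hTRA hBDP hBDD) hBDP hBDD

theorem hLC : StLC :=
  Pool.Agent.Helper53.CXD.hLC Pool.Agent.Helper78.CX.hRC (Pool.Agent.Helper24.CX.hC1 hTRA hBDP hGAP)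
    (Pool.Agent.Helper43.CX.hC2M hTRA hBDP hBDD) (Pool.Agent.Helper31.CX.hC2Y hBDP hBDD) hBDP hBDD

theorem hLD : StLD :=
  Pool.Agent.Helper73.CX.hLD Pool.Agent.Helper61.CX.hRD (Pool.Agent.Helper38.CX.hD1 hTRA hBDP hBDD)
    (Pool.Agent.Helper15.CX.hD2 hBDP hBDD) (Pool.Agent.Helper57.CX.hD3 hBDP hBDD)

/-- `NearBound` fails over every ordered field, already in dimension `6` for a system of `74` inequalities. -/
theorem notNear : StMAIN :=
  Pool.Agent.Helper34.CX.hMAIN Pool.Agent.Helper42.CX.hNEAR Pool.Agent.Helper10.CX.hPOL hLA hLB hLC hLD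

end Pool.Agent.Helper51.CX
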