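import Mathlib

/-!
# Project CX (MP_a41ee4_co): the circuit d-step conjecture is false. Tables.

Index `k < 32`: gap row `k`. Index `32 + i`, `i < 32`: narrow row `i`. See `Defs.lean`.
-/

set_option autoImplicit false

namespace Pool.Agent.Helper51.CX

/-- First coordinate of the direction of corner `j` (`0` for gap rows). -/
def lfx : List ℤ :=
  [0, 0, 0, 0, 0, 0, 0, 0, 0, 0, 0, 0, 0, 0, 0, 0, 0, 0, 0, 0, 0, 0, 0, 0, 0, 0, 0, 0, 0, 0, 0, 0, -50, -50,
  -50, -50, -50, -50, -50, -50, 50, 50, 50, 50, 50, 50, 50, 50, 50, 50, 50, 50, 50, 50, 50, 50, -50, -50,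
  -50, -50, -50, -50, -50, -50]

/-- First coordinate of the direction of corner `j` (`0` for gap rows). -/
def fx (k : ℕ) : ℤ := (lfx).getD k 0

/-- Second coordinate of the direction of corner `j`. -/
def lfy : List ℤ :=
  [0, 0, 0, 0, 0, 0, 0, 0, 0, 0, 0, 0, 0, 0, 0, 0, 0, 0, 0, 0, 0, 0, 0, 0, 0, 0, 0, 0, 0, 0, 0, 0, -37, -39,
  -43, -45, -55, -57, -61, -63, -63, -61, -57, -55, -45, -43, -39, -37, 37, 39, 43, 45, 55, 57, 61, 63, 63,
  61, 57, 55, 45, 43, 39, 37]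

/-- Second coordinate of the direction of corner `j`. -/
def fy (k : ℕ) : ℤ := (lfy).getD k 0

/-- First coordinate of the near vertex of corner `j`. -/
def lv1 : List ℤ :=
  [0, 0, 0, 0, 0, 0, 0, 0, 0, 0, 0, 0, 0, 0, 0, 0, 0, 0, 0, 0, 0, 0, 0, 0, 0, 0, 0, 0, 0, 0, 0, 0, 1, -1, 1,
  -1, 1, -1, 1, -1, -1, 1, -1, 1, -1, 1, -1, 1, -1, 1, -1, 1, -1, 1, -1, 1, 1, -1, 1, -1, 1, -1, 1, -1]

/-- First coordinate of the near vertex of corner `j`. -/
def v1 (k : ℕ) : ℤ := (lv1).getD k 0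

/-- Second coordinate of the near vertex of corner `j`. -/
def lv2 : List ℤ :=
  [0, 0, 0, 0, 0, 0, 0, 0, 0, 0, 0, 0, 0, 0, 0, 0, 0, 0, 0, 0, 0, 0, 0, 0, 0, 0, 0, 0, 0, 0, 0, 0, 1, 1, -1,
  -1, 1, 1, -1, -1, -1, -1, 1, 1, -1, -1, 1, 1, -1, -1, 1, 1, -1, -1, 1, 1, 1, 1, -1, -1, 1, 1, -1, -1]

/-- Second coordinate of the near vertex of corner `j`. -/
def v2 (k : ℕ) : ℤ := (lv2).getD k 0

/-- Third coordinate of the near vertex of corner `j`. -/
def lv3 : List ℤ :=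
  [0, 0, 0, 0, 0, 0, 0, 0, 0, 0, 0, 0, 0, 0, 0, 0, 0, 0, 0, 0, 0, 0, 0, 0, 0, 0, 0, 0, 0, 0, 0, 0, 1, 1, 1,
  1, -1, -1, -1, -1, -1, -1, -1, -1, 1, 1, 1, 1, -1, -1, -1, -1, 1, 1, 1, 1, 1, 1, 1, 1, -1, -1, -1, -1]

/-- Third coordinate of the near vertex of corner `j`. -/
def v3 (k : ℕ) : ℤ := (lv3).getD k 0

/-- Weight of the narrow row `j`. -/
def lla : List ℤ :=
  [0, 0, 0, 0, 0, 0, 0, 0, 0, 0, 0, 0, 0, 0, 0, 0, 0, 0, 0, 0, 0, 0, 0, 0, 0, 0, 0, 0, 0, 0, 0, 0, 2, 3, 1,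
  3, 1, 2, 2, 1, 3, 3, 1, 2, 3, 3, 3, 1, 2, 3, 1, 3, 1, 2, 2, 1, 3, 3, 1, 2, 3, 3, 3, 1]

/-- Weight of the narrow row `j`. -/
def la (k : ℕ) : ℤ := (lla).getD k 0

/-- First coordinate of the point of row `k` (polygon vertex or edge midpoint). -/
def lqx : List ℤ :=
  [-1683, -1535, -1301, -1215, -945, -835, -607, -363, -237, 141, 507, 621, 841, 1111, 1369, 1603, 1677,
  1529, 1295, 1209, 939, 829, 601, 357, 231, -147, -513, -627, -847, -1117, -1375, -1609, -1609, -1418,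
  -1258, -1080, -890, -721, -485, -300, -48, 324, 564, 731, 976, 1240, 1486, 1640, 1603, 1412, 1252, 1074,
  884, 715, 479, 294, 42, -330, -570, -737, -982, -1246, -1492, -1646]

/-- First coordinate of the point of row `k` (polygon vertex or edge midpoint). -/
def qx (k : ℕ) : ℤ := (lqx).getD k 0

/-- Second coordinate of the point of row `k`. -/
def lqy : List ℤ :=
  [-207, -407, -707, -807, -1107, -1207, -1407, -1607, -1707, -1407, -1107, -1007, -807, -507, -207, 93, 193,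
  393, 693, 793, 1093, 1193, 1393, 1593, 1693, 1393, 1093, 993, 793, 493, 193, -107, -307, -557, -757, -957,
  -1157, -1307, -1507, -1657, -1557, -1257, -1057, -907, -657, -357, -57, 143, 293, 543, 743, 943, 1143,
  1293, 1493, 1643, 1543, 1243, 1043, 893, 643, 343, 43, -157]

/-- Second coordinate of the point of row `k`. -/
def qy (k : ℕ) : ℤ := (lqy).getD k 0

/-- The vector of member `k` of facet `j`: `k < 64` is row `k`, `k = 64` is the form `s`, `k = 65` is the pair of rows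
`50 s ∓ x`. -/
def vx (j k : ℕ) : ℤ := if k = 65 then 1 else qx j - qx k

/-- Second coordinate of the vector of member `k` of facet `j`. -/
def vy (j k : ℕ) : ℤ := if k = 65 then 0 else qy j - qy k

/-- The first gap row next to the narrow row `j`. -/
def ga (j : ℕ) : ℕ := j - 32

/-- The second gap row next to the narrow row `j`. -/
def gb (j : ℕ) : ℕ := (j - 31) % 32

end Pool.Agent.Helper51.CX
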