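import Pool.Agent.Helper4.CD.M_FIN2
import Pool.Agent.Helper51.CX.Data

/-!
# Project CX (MP_a41ee4_co): the circuit d-step conjecture is false. Definitions.

An explicit system of `74` inequalities in `K^6` (integer data), `u = 0`, `v = (0,0,0,0,0,1)`, without `StrongWalk`.
Coordinates `z 0, z 1` (far), `z 2, z 3, z 4` (near), `z 5`.
-/

set_option autoImplicit false

namespace Pool.Agent.Helper51.CX

open Module

section

variable {K : Type} [Field K]

/-- `L k z`: the V-row number `k < 64` is `L k z ≤ 10 ^ 60`. -/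
def L (k : ℕ) (z : Fin 6 → K) : K :=
  10 ^ 60 * z 5 + 10 ^ 40 * ((qx k : K) * z 0 + (qy k : K) * z 1) +
    (la k : K) * (10 ^ 20 * ((fx k : K) * z 0 + (fy k : K) * z 1) -
      ((v1 k : K) * z 2 + (v2 k : K) * z 3 + (v3 k : K) * z 4))

variable (K) in
/-- V-row `k` as a linear form (with the sign such that the inequality is `≥`). -/
def VR (k : ℕ) : Dual K (Fin 6 → K) where
  toFun z := -L k z
  map_add' z w := by simp only [L, Pi.add_apply]; ring
  map_smul' a z := by simp only [L, Pi.smul_apply, smul_eq_mul, RingHom.id_apply]; ring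

/-- The U-rows `50 z5 - t z0 ≥ 0`, `t = 1, -1`. -/
def RX (t : K) : Dual K (Fin 6 → K) where
  toFun z := 50 * z 5 - t * z 0
  map_add' z w := by simp only [Pi.add_apply]; ring
  map_smul' a z := by simp only [Pi.smul_apply, smul_eq_mul, RingHom.id_apply]; ring

/-- The U-rows `50 z5 - t (z1 - (z2 + 3 z3 + 9 z4)) ≥ 0`, `t = 1, -1`. -/
def RY (t : K) : Dual K (Fin 6 → K) where
  toFun z := 50 * z 5 - t * (z 1 - (z 2 + 3 * z 3 + 9 * z 4))
  map_add' z w := by simp only [Pi.add_apply]; ring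
  map_smul' a z := by simp only [Pi.smul_apply, smul_eq_mul, RingHom.id_apply]; ring

/-- The U-rows `z5 - t z_a ≥ 0`, `t = 1, -1`, `a = 2, 3, 4`. -/
def RZ (a : Fin 6) (t : K) : Dual K (Fin 6 → K) where
  toFun z := z 5 - t * z a
  map_add' z w := by simp only [Pi.add_apply]; ring
  map_smul' a z := by simp only [Pi.smul_apply, smul_eq_mul, RingHom.id_apply]; ring

variable (K) in
/-- The ten U-rows. -/
def UR : ℕ → Dual K (Fin 6 → K)
  | 0 => RX 1
  | 1 => RX (-1)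
  | 2 => RY 1
  | 3 => RY (-1)
  | 4 => RZ 2 1
  | 5 => RZ 2 (-1)
  | 6 => RZ 3 1
  | 7 => RZ 3 (-1)
  | 8 => RZ 4 1
  | _ => RZ 4 (-1)

variable (K) in
/-- All rows: `n < 64` are the V-rows, `n = 64, ..., 73` the U-rows. -/
def cc (n : Fin 74) : Dual K (Fin 6 → K) := if n.val < 64 then VR K n.val else UR K (n.val - 64)

variable (K) in
/-- The right-hand sides. -/
def rr (n : Fin 74) : K := if n.val < 64 then -10 ^ 60 else 0

variable (K) in
/-- The apex `v`. -/
def vv : Fin 6 → K := fun i => if i = 5 then 1 else 0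

/-- Radial far coordinate at corner `j`. -/
def pp (j : ℕ) (z : Fin 6 → K) : K := (fx j : K) * z 0 + (fy j : K) * z 1

/-- Transversal far coordinate at corner `j`. -/
def ww (j : ℕ) (z : Fin 6 → K) : K := (fx j : K) * z 1 - (fy j : K) * z 0

/-- The near form of corner `j`. -/
def el (j : ℕ) (z : Fin 6 → K) : K := (v1 j : K) * z 2 + (v2 j : K) * z 3 + (v3 j : K) * z 4

variable (K) in
/-- `|f_j|^2`. -/
def FF (j : ℕ) : K := (fx j : K) ^ 2 + (fy j : K) ^ 2

variable [LinearOrder K]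

/-- Size of the far part. -/
def nn (z : Fin 6 → K) : K := |z 0| + |z 1|

/-- Size of the near part. -/
def mm (z : Fin 6 → K) : K := |z 2| + |z 3| + |z 4|

/-- Feasible points, in elementary form. -/
structure Feas (z : Fin 6 → K) : Prop where
  v : ∀ k < 64, L k z ≤ 10 ^ 60
  x : |z 0| ≤ 50 * z 5
  y : |z 1 - (z 2 + 3 * z 3 + 9 * z 4)| ≤ 50 * z 5
  z2 : |z 2| ≤ z 5
  z3 : |z 3| ≤ z 5
  z4 : |z 4| ≤ z 5

/-- Member number `k < 66` vanishes on `d`: `k < 64` is V-row `k`, `64` is the form `z 5`, `65` one of the rows `RX`. -/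
def Mem (k : ℕ) (d : Fin 6 → K) : Prop :=
  if k < 64 then L k d = 0 else if k = 64 then d 5 = 0 else |d 0| = 50 * |d 5|

/-- One of the rows `RY` vanishes on `d`. -/
def MY (d : Fin 6 → K) : Prop := |d 1 - (d 2 + 3 * d 3 + 9 * d 4)| = 50 * |d 5|

/-- One of the rows `RZ a` vanishes on `d`. -/
def MZ (a : Fin 6) (d : Fin 6 → K) : Prop := |d a| = |d 5|

/-- State after the first step: the corner `j`. -/
structure S1 (j : ℕ) (z : Fin 6 → K) : Prop where
  lo : 32 ≤ j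
  hi : j < 64
  fe : Feas z
  tj : L j z = 10 ^ 60
  e0 : z 0 = z 5 * (fx j : K)
  e1 : z 1 = z 5 * (fy j : K)
  e2 : z 2 = z 5 * (v1 j : K)
  e3 : z 3 = z 5 * (v2 j : K)
  e4 : z 4 = z 5 * (v3 j : K)

/-- State after the second step: the wall `h`. -/
structure S2 (j h : ℕ) (z : Fin 6 → K) : Prop where
  lo : 32 ≤ j
  hi : j < 64
  hh : h = ga j ∨ h = gb j
  fe : Feas z
  tj : L j z = 10 ^ 60
  th : L h z = 10 ^ 60
  far : 49 * FF K j ≤ 100 * pp j z
  n2 : 10 ^ 6 * |(v1 j : K) * z 2 - 1| ≤ 1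
  n3 : 10 ^ 6 * |(v2 j : K) * z 3 - 1| ≤ 1
  n4 : 10 ^ 6 * |(v3 j : K) * z 4 - 1| ≤ 1

/-- State after the third step. -/
structure S3 (j : ℕ) (z : Fin 6 → K) : Prop where
  lo : 32 ≤ j
  hi : j < 64
  fe : Feas z
  tj : L j z = 10 ^ 60
  ta : L (ga j) z = 10 ^ 60
  tb : L (gb j) z = 10 ^ 60
  n2 : 10 ^ 5 * |(v1 j : K) * z 2 - 1| ≤ 1
  n3 : 10 ^ 5 * |(v2 j : K) * z 3 - 1| ≤ 1
  n4 : 10 ^ 5 * |(v3 j : K) * z 4 - 1| ≤ 1

end

end Pool.Agent.Helper51.CX
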