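import Pool.Agent.Helper51.CX.Tab
import Pool.Agent.Helper51.CX.Defs

set_option autoImplicit false

/-!
# Project CX (MP_a41ee4_co). Basic lemmas.
-/

namespace Pool.Agent.Helper51.CX

open Module

section

variable {K : Type} [Field K]

theorem L_add (k : ℕ) (z d : Fin 6 → K) : L k (z + d) = L k z + L k d := by
  simp only [L, Pi.add_apply]; ring

theorem L_smul (k : ℕ) (a : K) (z : Fin 6 → K) : L k (a • z) = a * L k z := by
  simp only [L, Pi.smul_apply, smul_eq_mul]; ring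

theorem pp_add (j : ℕ) (z d : Fin 6 → K) : pp j (z + d) = pp j z + pp j d := by
  simp only [pp, Pi.add_apply]; ring

theorem ww_add (j : ℕ) (z d : Fin 6 → K) : ww j (z + d) = ww j z + ww j d := by
  simp only [ww, Pi.add_apply]; ring

theorem el_add (j : ℕ) (z d : Fin 6 → K) : el j (z + d) = el j z + el j d := by
  simp only [el, Pi.add_apply]; ring

theorem VR_apply (k : ℕ) (z : Fin 6 → K) : VR K k z = -L k z := rfl

theorem RX_apply (t : K) (z : Fin 6 → K) : RX t z = 50 * z 5 - t * z 0 := rfl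

theorem RY_apply (t : K) (z : Fin 6 → K) : RY t z = 50 * z 5 - t * (z 1 - (z 2 + 3 * z 3 + 9 * z 4)) := rfl

theorem RZ_apply (a : Fin 6) (t : K) (z : Fin 6 → K) : RZ a t z = z 5 - t * z a := rfl

/-- The form of a V-row difference, in terms of the vectors of the members. -/
theorem L_sub (j k : ℕ) (hk : k ≠ 65) (z : Fin 6 → K) : L j z - L k z =
    10 ^ 40 * ((vx j k : K) * z 0 + (vy j k : K) * z 1) + (la j : K) * (10 ^ 20 * pp j z - el j z) -
      (la k : K) * (10 ^ 20 * pp k z - el k z) := by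
  simp only [L, vx, vy, pp, el, if_neg hk]; push_cast; ring

theorem FF_d0 (j : ℕ) (z : Fin 6 → K) : FF K j * z 0 = fx j * pp j z - fy j * ww j z := by
  simp only [FF, pp, ww]; ring

theorem FF_d1 (j : ℕ) (z : Fin 6 → K) : FF K j * z 1 = fy j * pp j z + fx j * ww j z := by
  simp only [FF, pp, ww]; ring

theorem cc_lo (k : ℕ) (hk : k < 64) (h : k < 74) : cc K ⟨k, h⟩ = VR K k ∧ rr K ⟨k, h⟩ = -10 ^ 60 := by
  constructor
  · simp only [cc, if_pos hk]
  · simp only [rr, if_pos hk]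

theorem cc_hi (m : ℕ) (h : 64 + m < 74) : cc K ⟨64 + m, h⟩ = UR K m ∧ rr K ⟨64 + m, h⟩ = 0 := by
  have h1 : ¬ (64 + m < 64) := by omega
  constructor
  · simp only [cc, if_neg h1]
    congr 1
    omega
  · simp only [rr, if_neg h1]

/-- A statement for all rows. -/
theorem forall_rows (P : Dual K (Fin 6 → K) → K → Prop) : (∀ n, P (cc K n) (rr K n)) ↔
    (∀ k < 64, P (VR K k) (-10 ^ 60)) ∧ P (RX 1) 0 ∧ P (RX (-1)) 0 ∧ P (RY 1) 0 ∧ P (RY (-1)) 0 ∧
      P (RZ 2 1) 0 ∧ P (RZ 2 (-1)) 0 ∧ P (RZ 3 1) 0 ∧ P (RZ 3 (-1)) 0 ∧ P (RZ 4 1) 0 ∧ P (RZ 4 (-1)) 0 := by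
  constructor
  · intro h
    have key : ∀ m, 64 + m < 74 → P (UR K m) 0 := fun m hm => by
      have h1 := h ⟨64 + m, hm⟩
      rwa [(cc_hi m hm).1, (cc_hi m hm).2] at h1
    refine ⟨fun k hk => ?_, key 0 (by norm_num), key 1 (by norm_num), key 2 (by norm_num), key 3 (by norm_num),
      key 4 (by norm_num), key 5 (by norm_num), key 6 (by norm_num), key 7 (by norm_num), key 8 (by norm_num),
      key 9 (by norm_num)⟩
    have h1 := h ⟨k, by omega⟩
    rwa [(cc_lo k hk _).1, (cc_lo k hk _).2] at h1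
  · rintro ⟨h, h0, h1, h2, h3, h4, h5, h6, h7, h8, h9⟩ ⟨n, hn⟩
    by_cases hk : n < 64
    · rw [(cc_lo n hk _).1, (cc_lo n hk _).2]
      exact h n hk
    · obtain ⟨m, rfl⟩ : ∃ m, n = 64 + m := ⟨n - 64, by omega⟩
      rw [(cc_hi m hn).1, (cc_hi m hn).2]
      have hm : m < 10 := by omega
      interval_cases m
      · exact h0
      · exact h1
      · exact h2
      · exact h3
      · exact h4
      · exact h5
      · exact h6
      · exact h7
      · exact h8
      · exact h9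

end

section

variable {K : Type} [Field K] [LinearOrder K]

theorem Mem_lt {k : ℕ} (hk : k < 64) (d : Fin 6 → K) : Mem k d ↔ L k d = 0 := by
  simp only [Mem, if_pos hk]

theorem Mem_64 (d : Fin 6 → K) : Mem 64 d ↔ d 5 = 0 := by
  simp only [Mem, lt_irrefl, if_false, if_true]

theorem Mem_65 (d : Fin 6 → K) : Mem 65 d ↔ |d 0| = 50 * |d 5| := by
  simp [Mem]

variable [IsStrictOrderedRing K]

theorem nn_nonneg (z : Fin 6 → K) : 0 ≤ nn z := add_nonneg (abs_nonneg _) (abs_nonneg _)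

theorem mm_nonneg (z : Fin 6 → K) : 0 ≤ mm z :=
  add_nonneg (add_nonneg (abs_nonneg _) (abs_nonneg _)) (abs_nonneg _)

theorem nn_le (z d : Fin 6 → K) : nn d ≤ nn z + nn (z + d) := by
  have h : ∀ i, |d i| ≤ |z i| + |(z + d) i| := fun i => by
    have h1 : d i = (z + d) i - z i := by simp
    calc |d i| = |(z + d) i - z i| := by rw [← h1]
      _ ≤ |(z + d) i| + |z i| := abs_sub _ _
      _ = |z i| + |(z + d) i| := add_comm _ _
  have h0 := h 0
  have h1 := h 1
  simp only [nn]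
  linarith

theorem mm_le (z d : Fin 6 → K) : mm d ≤ mm z + mm (z + d) := by
  have h : ∀ i, |d i| ≤ |z i| + |(z + d) i| := fun i => by
    have h1 : d i = (z + d) i - z i := by simp
    calc |d i| = |(z + d) i - z i| := by rw [← h1]
      _ ≤ |(z + d) i| + |z i| := abs_sub _ _
      _ = |z i| + |(z + d) i| := add_comm _ _
  have h0 := h 2
  have h1 := h 3
  have h2 := h 4
  simp only [mm]
  linarith

/-- Signs of a corner, over `K`. -/
theorem sgn (j : ℕ) (h1 : 32 ≤ j) (h2 : j < 64) : ((fx j : K) = 50 ∨ (fx j : K) = -50) ∧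
    ((v1 j : K) = 1 ∨ (v1 j : K) = -1) ∧ ((v2 j : K) = 1 ∨ (v2 j : K) = -1) ∧ ((v3 j : K) = 1 ∨ (v3 j : K) = -1) ∧
    ((fy j : K) = 50 + ((v1 j : K) + 3 * (v2 j : K) + 9 * (v3 j : K)) ∨
      (fy j : K) = -50 + ((v1 j : K) + 3 * (v2 j : K) + 9 * (v3 j : K))) := by
  obtain ⟨a, b, c, d, e⟩ := hT0 j h2 h1
  refine ⟨?_, ?_, ?_, ?_, ?_⟩
  · rcases a with a | a
    · left; rw [a]; norm_num
    · right; rw [a]; norm_num
  · rcases b with a | a
    · left; rw [a]; norm_num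
    · right; rw [a]; norm_num
  · rcases c with a | a
    · left; rw [a]; norm_num
    · right; rw [a]; norm_num
  · rcases d with a | a
    · left; rw [a]; norm_num
    · right; rw [a]; norm_num
  · rcases e with a | a
    · left; rw [a]; push_cast; ring
    · right; rw [a]; push_cast; ring

/-- Table bounds over `K`. -/
theorem bds (k : ℕ) (h : k < 64) : |(qx k : K)| ≤ 1707 ∧ |(qy k : K)| ≤ 1707 ∧ |(fx k : K)| ≤ 50 ∧
    |(fy k : K)| ≤ 63 ∧ |(v1 k : K)| ≤ 1 ∧ |(v2 k : K)| ≤ 1 ∧ |(v3 k : K)| ≤ 1 ∧ 0 ≤ (la k : K) ∧ (la k : K) ≤ 3 := by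
  obtain ⟨a, b, c, d, e, f, g, p, q⟩ := hT2 k h
  refine ⟨?_, ?_, ?_, ?_, ?_, ?_, ?_, ?_, ?_⟩ <;> exact_mod_cast (by assumption)

/-- Weights of narrow rows over `K`. -/
theorem la_bds (j : ℕ) (h1 : 32 ≤ j) (h2 : j < 64) : 1 ≤ (la j : K) ∧ (la j : K) ≤ 3 := by
  obtain ⟨_, _, _, _, a, b, _⟩ := hT1 j h2 h1
  exact ⟨by exact_mod_cast a, by exact_mod_cast b⟩

/-- `|pp| ≤ 63 nn`, `|ww| ≤ 63 nn`, `|el| ≤ mm`. -/
theorem pwe_le (k : ℕ) (h : k < 64) (z : Fin 6 → K) : |pp k z| ≤ 63 * nn z ∧ |ww k z| ≤ 63 * nn z ∧ |el k z| ≤ mm z := by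
  obtain ⟨_, _, c, d, e, f, g, _, _⟩ := bds (K := K) k h
  have h0 := abs_nonneg (z 0)
  have h1 := abs_nonneg (z 1)
  have key : ∀ (a x b : K), |a| ≤ b → |a * x| ≤ b * |x| := fun a x b hab => by
    rw [abs_mul]; exact mul_le_mul_of_nonneg_right hab (abs_nonneg _)
  refine ⟨?_, ?_, ?_⟩
  · have e1 := key _ (z 0) _ c
    have e2 := key _ (z 1) _ d
    have e3 := abs_add_le ((fx k : K) * z 0) ((fy k : K) * z 1)
    simp only [pp, nn]
    linarith
  · have e1 := key _ (z 1) _ c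
    have e2 := key _ (z 0) _ d
    have e3 := abs_sub ((fx k : K) * z 1) ((fy k : K) * z 0)
    simp only [ww, nn]
    linarith
  · have e1 := key _ (z 2) _ e
    have e2 := key _ (z 3) _ f
    have e3 := key _ (z 4) _ g
    have e4 := abs_add_le ((v1 k : K) * z 2 + (v2 k : K) * z 3) ((v3 k : K) * z 4)
    have e5 := abs_add_le ((v1 k : K) * z 2) ((v2 k : K) * z 3)
    simp only [el, mm]
    linarith

end

end Pool.Agent.Helper51.CX
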