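import Pool.Agent.Helper51.CX.Tab
import Pool.Agent.Helper51.CX.Bas

/-!
# Project CX (MP_a41ee4_co): the circuit d-step conjecture is false. Statements of the modules.

The complete proof on paper is `MP_a41ee4-DISPROOF.md` in the team store. Here everything is scaled: V-rows are
`L k z ≤ 10^60` (so `e = 10^{-20}`, `p = pp`, `w = ww`, `l = el`, `n = nn`, `m = mm`, `F = FF`).
Facts about the tables: `hT0 ... hT4` in `Tab.lean` (all proved).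
HOW TO USE INTEGER TABLE FACTS OVER `K`: cast, for instance
`have h : (fx j : K) = 50 := by exact_mod_cast h0`. For the lemmas with `MY` split into the `32` sign cases given by
`hT0` (`fx j = 50` or `-50`, `v1 j, v2 j, v3 j = 1` or `-1`, `fy j = 50 + (..)` or `-50 + (..)`), substitute, and use
`linarith` in every case; everything is linear in the coordinates then.
-/

set_option autoImplicit false

namespace Pool.Agent.Helper51.CX

open Module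

/-- (POL) `Poly (cc K) (rr K)` in elementary form. Proof. Row `n < 64` says `-10^60 ≤ -L n z`; the rows
`64, ..., 73` say `50 z5 ∓ z0 ≥ 0` etc., which is `|z0| ≤ 50 z5` etc. (`abs_le`). -/
def StPOL : Prop :=
  ∀ (K : Type) [Field K] [LinearOrder K] [IsStrictOrderedRing K] (z : Fin 6 → K),
    z ∈ Pool.Agent.Helper4.CD.Poly (cc K) (rr K) ↔ Feas z

/-- (NEAR) Proof. `0` is feasible; `vv` is feasible: `L k vv = 10^60`. Rows tight at `vv` are exactly the V-rows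
(U-rows are `50` or `1` at `vv`, right-hand side `0`). `away`: V-rows: `-10^60 < 0`. `near`: U-rows `0 < 50` or `0 < 1`.
Vertex: if `L k y = 0` for all `k < 64` then `y = 0`: the tables contain, for instance, `j = 32, 33, 34, 36, 48` ...; by
`hT1`: `0 = L j y - L (ga j) y = la j * (10^40 ww j y + 10^20 pp j y - el j y)` and
`0 = L j y - L (gb j) y = la j * (-10^40 ww j y + 10^20 pp j y - el j y)` so `ww j y = 0` for all `j`; two different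
directions give `y 0 = y 1 = 0`, then `el j y = 0` for all `j`, so `y 2 = y 3 = y 4 = 0` (signs), then `y 5 = 0`.
(With numerals: `L 32, L 0, L 1, L 33, L 2, L 34, L 36` suffice, unfold the tables with `simp` or `decide` for the
values.) -/
def StNEAR : Prop :=
  ∀ (K : Type) [Field K] [LinearOrder K] [IsStrictOrderedRing K],
    Pool.Agent.Helper4.CD.Near (cc K) (rr K) (0 : Fin 6 → K) (vv K)

/-- (GAP) Proof. `hT1` (cast to `K`) and `ring`; for the gap rows `fx = fy = v1 = v2 = v3 = la = 0` (`hT2'`). -/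
def StGAP : Prop :=
  ∀ (K : Type) [Field K] [LinearOrder K] [IsStrictOrderedRing K] (j : ℕ), 32 ≤ j → j < 64 → ∀ z : Fin 6 → K,
    L j z - L (ga j) z = (la j : K) * (10 ^ 40 * ww j z + 10 ^ 20 * pp j z - el j z) ∧
    L j z - L (gb j) z = (la j : K) * (-(10 ^ 40 * ww j z) + 10 ^ 20 * pp j z - el j z)

/-- (BDP) Bounds for positions on facet `j` and `3869 ≤ FF ≤ 6469` (from `hT0`). Proof. `|z0| ≤ 50 z5`,
`|z1| ≤ 50 z5 + |z2| + 3 |z3| + 9 |z4| ≤ 63 z5`, so `nn z ≤ 113 z5`, `mm z ≤ 3 z5`. `L j z = 10^60` gives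
`10^60 |z5 - 1| ≤ 10^40 * 1707 * nn z + 3 * (10^20 * 63 * nn z + mm z) ≤ 2 * 10^45 * z5` (by `hT2`), so
`10^14 |z5 - 1| ≤ 1`. Last two conjuncts: `hT3`-free; gap rows are feasible, (GAP), `1 ≤ la j`. -/
def StBDP : Prop :=
  ∀ (K : Type) [Field K] [LinearOrder K] [IsStrictOrderedRing K] (j : ℕ), 32 ≤ j → j < 64 → ∀ z : Fin 6 → K,
    Feas z → L j z = 10 ^ 60 →
    10 ^ 14 * |z 5 - 1| ≤ 1 ∧ nn z ≤ 113 * z 5 ∧ mm z ≤ 3 * z 5 ∧ |pp j z| ≤ 63 * nn z ∧ |ww j z| ≤ 63 * nn z ∧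
    |el j z| ≤ mm z ∧ 3869 ≤ FF K j ∧ FF K j ≤ 6469 ∧
    10 ^ 40 * |ww j z| ≤ 10 ^ 20 * pp j z - el j z ∧
    (L (ga j) z = 10 ^ 60 → 10 ^ 40 * |ww j z| = 10 ^ 20 * pp j z - el j z) ∧
    (L (gb j) z = 10 ^ 60 → 10 ^ 40 * |ww j z| = 10 ^ 20 * pp j z - el j z)

/-- (BDD) Bounds for differences. Proof. `L j d = 0` gives
`10^60 |d5| ≤ 10^40 * 1707 * nn d + 3 * (10^20 * 63 * nn d + mm d)` (by `hT2`). The second and third conjunct: (GAP) and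
`la j ≠ 0`: `10^40 ww + 10^20 pp - el = 0` or `-10^40 ww + 10^20 pp - el = 0`. The others: `hT2`, and
`FF * d0 = fx * pp - fy * ww`, `FF * d1 = fy * pp + fx * ww`. -/
def StBDD : Prop :=
  ∀ (K : Type) [Field K] [LinearOrder K] [IsStrictOrderedRing K] (j : ℕ), 32 ≤ j → j < 64 → ∀ d : Fin 6 → K,
    (L j d = 0 → 10 ^ 16 * |d 5| ≤ nn d + mm d) ∧
    (L j d = 0 → L (ga j) d = 0 → 10 ^ 40 * |ww j d| = |10 ^ 20 * pp j d - el j d|) ∧
    (L j d = 0 → L (gb j) d = 0 → 10 ^ 40 * |ww j d| = |10 ^ 20 * pp j d - el j d|) ∧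
    (L j d = 0 → L (ga j) d = 0 → L (gb j) d = 0 → ww j d = 0 ∧ 10 ^ 20 * pp j d = el j d) ∧
    |ww j d| ≤ 63 * nn d ∧ |pp j d| ≤ 63 * nn d ∧ |el j d| ≤ mm d ∧
    FF K j * d 0 = fx j * pp j d - fy j * ww j d ∧ FF K j * d 1 = fy j * pp j d + fx j * ww j d

/-- (APP) (1.1) of the paper proof. Proof. First alternative:
`0 = L j d - L k d = 10^40 (vx d0 + vy d1) + la_j (10^20 pp_j - el_j) - la_k (10^20 pp_k - el_k)`, and
`|pp| ≤ 63 nn`, `|el| ≤ mm`, `0 ≤ la ≤ 3` (`hT2`), so `10^40 |vx d0 + vy d1| ≤ 378 * 10^20 nn + 6 mm`.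
Second, `k = 64`: `d5 = 0`, `vx j 64 = qx j`, `vy j 64 = qy j` (`qx 64 = 0`, by `rfl` or `decide`), so
`10^40 (..) + la_j (..) = 0`. `k = 65`: `vx = 1, vy = 0`, `|d0| = 50 |d5|`,
`10^60 |d5| ≤ 1707 * 10^40 nn + 3 (10^20 * 63 nn + mm)`, so `10^60 |d0| ≤ 85400 * 10^40 nn + 150 mm`. -/
def StAPP : Prop :=
  ∀ (K : Type) [Field K] [LinearOrder K] [IsStrictOrderedRing K] (j : ℕ), 32 ≤ j → j < 64 → ∀ k < 66, k ≠ j →
    ∀ d : Fin 6 → K, ((k < 64 ∧ L k d = L j d) ∨ (L j d = 0 ∧ Mem k d)) →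
    10 ^ 35 * |(vx j k : K) * d 0 + (vy j k : K) * d 1| ≤ 10 ^ 20 * nn d + mm d

/-- (CRA) (1.2) of the paper proof. Uses (APP). Proof. With `A = vx_k d0 + vy_k d1`, `B = vx_l d0 + vy_l d1`,
`D = vx_k vy_l - vy_k vx_l ≠ 0` an integer (`hT4`), so `1 ≤ |D|`: `D d0 = vy_l A - vy_k B`, `D d1 = vx_k B - vx_l A`,
`|vx|, |vy| ≤ 3414` (`hT2`; for `k = 65` they are `1, 0`; for `k = 64` the entries of `q_64` are `0`). So
`nn d ≤ 13656 * max`, `10^35 nn ≤ 13656 (10^20 nn + mm)`. -/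
def StCRA : Prop :=
  ∀ (K : Type) [Field K] [LinearOrder K] [IsStrictOrderedRing K] (j : ℕ), 32 ≤ j → j < 64 → ∀ k < 66, k ≠ j →
    ∀ l < 66, l ≠ j → k ≠ l → ¬ (k = ga j ∧ l = gb j) → ¬ (k = gb j ∧ l = ga j) →
    ∀ d : Fin 6 → K, L j d = 0 → Mem k d → Mem l d → 10 ^ 30 * nn d ≤ mm d

/-- (TRA) (1.3) of the paper proof. Uses (APP). Proof. `F = FF K j`, `3869 ≤ F ≤ 6469`. `a = vx, b = vy` (cast):
`F (a d0 + b d1) = pp (a fx + b fy) + ww (b fx - a fy)`. `|a fx + b fy| ≥ 50`: `hT3` for `k < 65` (`≥ 100`), and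
`k = 65`: `a = 1, b = 0`, `|fx| = 50`. `|b fx - a fy| ≤ 3414 * 113 = 385782`.
`F nn ≤ 113 (|pp| + |ww|)` since `F d0 = fx pp - fy ww`, `F d1 = fy pp + fx ww`. By (APP):
`10^35 (50 |pp| - 385782 |ww|) ≤ F (10^20 nn + mm) ≤ 113 * 10^20 (|pp| + |ww|) + 6469 mm`. -/
def StTRA : Prop :=
  ∀ (K : Type) [Field K] [LinearOrder K] [IsStrictOrderedRing K] (j : ℕ), 32 ≤ j → j < 64 → ∀ k < 66, k ≠ j →
    k ≠ ga j → k ≠ gb j →
    ∀ d : Fin 6 → K, ((k < 64 ∧ L k d = L j d) ∨ (L j d = 0 ∧ Mem k d)) →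
    10 ^ 32 * |pp j d| ≤ 10 ^ 36 * |ww j d| + mm d

/-- (RA) Rank, first step. TOOL: `Pool.Agent.Helper62.CX.rank_lemma`. Proof. If `|d0| ≠ 50 |d5|` no row `RX` vanishes on
`d`. No V-row vanishes. Since `d5 ≠ 0` at most one of `RY 1, RY (-1)` vanishes on `d` (their sum is `100 z5`) and at most
one of `RZ a 1, RZ a (-1)`. So the rows vanishing on `d` are among at most four forms (take the form that vanishes, or
`0`), and `rank_lemma` with `m = 4` applies. The same for each of the other four conclusions. -/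
def StRA : Prop :=
  ∀ (K : Type) [Field K] [LinearOrder K] [IsStrictOrderedRing K] (d : Fin 6 → K),
    Pool.Agent.Helper4.CD.IsCircuit (cc K) d → d 5 ≠ 0 → (∀ k < 64, L k d ≠ 0) →
    |d 0| = 50 * |d 5| ∧ MY d ∧ MZ 2 d ∧ MZ 3 d ∧ MZ 4 d

/-- (RF) Rank, second step. TOOL: `Pool.Agent.Helper62.CX.rank_lemma`. Let `A` be the first alternative
`k0 < 66 ∧ k0 ≠ j ∧ Mem k0 d`. The claim: among the five statements `A, MY, MZ 2, MZ 3, MZ 4` at most one is false.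
Proof. Suppose two of them are false. Forms: `l0 = VR K j`; `lA` = the member `k0` (`VR K k0` if `k0 < 64`; the form
`z ↦ z 5` if `k0 = 64`; the vanishing one of `RX 1, RX (-1)` if `k0 = 65`), or `0` if `A` is false; `lY` = a vanishing one
of `RY 1, RY (-1)`, or `0` if `MY` is false; `l2, l3, l4` similarly. If `d 5 ≠ 0` then only one of `RY 1, RY (-1)`
vanishes (their sum is `100 z5`), only one of `RX 1, RX (-1)` and only one of `RZ a 1, RZ a (-1)`; if `d 5 = 0` then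
`Mem 64 d`, so `k0 = 64`, no other member vanishes (in particular `|d 0| ≠ 0`, no `RX` vanishes), `lA` is the form `z 5`,
and `RY (-1) = 100 z5 - RY 1` etc. are combinations of `lA` and `lY` etc. So every row vanishing on `d` vanishes on the
common kernel of the at most four nonzero forms, and `rank_lemma` with `m = 4` applies. -/
def StRF : Prop :=
  ∀ (K : Type) [Field K] [LinearOrder K] [IsStrictOrderedRing K] (j : ℕ), 32 ≤ j → j < 64 → ∀ (d : Fin 6 → K),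
    Pool.Agent.Helper4.CD.IsCircuit (cc K) d → L j d = 0 → ∀ k0 : ℕ, (∀ k < 66, k ≠ j → Mem k d → k = k0) →
    ((k0 < 66 ∧ k0 ≠ j ∧ Mem k0 d) ∨ MY d) ∧
    (∀ a : Fin 6, (a = 2 ∨ a = 3 ∨ a = 4) → ((k0 < 66 ∧ k0 ≠ j ∧ Mem k0 d) ∨ MZ a d) ∧ (MY d ∨ MZ a d)) ∧
    ∀ a b : Fin 6, (a = 2 ∨ a = 3 ∨ a = 4) → (b = 2 ∨ b = 3 ∨ b = 4) → a ≠ b → MZ a d ∨ MZ b d

/-- (RC) Rank, third step. TOOL: `Pool.Agent.Helper62.CX.rank_lemma`. Proof. `d 5 ≠ 0` (else `Mem 64 d`), so at most one of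
`RZ a 1, RZ a (-1)` vanishes for each `a`. No `RX`, `RY`, no V-row except `j, h` vanishes. If `MZ 2` fails, the
vanishing rows are among `VR j, VR h` and one `RZ 3`, one `RZ 4`: four forms. -/
def StRC : Prop :=
  ∀ (K : Type) [Field K] [LinearOrder K] [IsStrictOrderedRing K] (j h : ℕ), j < 64 → h < 64 → ∀ (d : Fin 6 → K),
    Pool.Agent.Helper4.CD.IsCircuit (cc K) d → (∀ k < 66, k ≠ j → k ≠ h → ¬ Mem k d) → ¬ MY d →
    MZ 2 d ∧ MZ 3 d ∧ MZ 4 d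

/-- (RD) Rank, fourth step. TOOL: `Pool.Agent.Helper62.CX.rank_lemma`. At least two of `MY, MZ 2, MZ 3, MZ 4` hold. Proof.
`d 5 ≠ 0` (else `Mem 64 d`). If three of them fail, the vanishing rows are among `VR j, VR (ga j), VR (gb j)` and one more
form. -/
def StRD : Prop :=
  ∀ (K : Type) [Field K] [LinearOrder K] [IsStrictOrderedRing K] (j : ℕ), 32 ≤ j → j < 64 → ∀ (d : Fin 6 → K),
    Pool.Agent.Helper4.CD.IsCircuit (cc K) d → (∀ k < 66, k ≠ j → k ≠ ga j → k ≠ gb j → ¬ Mem k d) →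
    (MY d ∨ MZ 2 d ∨ MZ 3 d) ∧ (MY d ∨ MZ 2 d ∨ MZ 4 d) ∧ (MY d ∨ MZ 3 d ∨ MZ 4 d) ∧ (MZ 2 d ∨ MZ 3 d ∨ MZ 4 d)

/-- (LA) Lemma A, first step (from `0`, so the end point is the displacement `d`). Uses (RA). Proof. `0 ≤ d5`; `d5 = 0`
gives `d = 0` by `Feas`, but `L k d = 10^60`. `|d0| ≤ 50 d5`, `|d1| ≤ 63 d5`, so
`L k d ≥ (10^60 - 10^40 * 1707 * 113 - 3 * (10^20 * 63 * 113 + 3)) d5 > 0` for all `k < 64` (`hT2`). (RA): `|d0| = 50 d5`,
`|d1 - (d2 + 3 d3 + 9 d4)| = 50 d5`, `|d2| = |d3| = |d4| = d5`. So `d0 = 50 a d5`, `d1 - (..) = 50 b d5`, `d2 = c d5`, ...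
with signs `a, b, c, d, e ∈ {1, -1}`, and `hT0'` gives `j` with `d0 = d5 fx j` etc. Let `L k d = 10^60`. For every
`k ≠ j`: `L k d < L j d`: `L j d - L k d = 10^40 (vx d0 + vy d1) + la_j (10^20 pp_j - el_j) - la_k (10^20 pp_k - el_k)`.
If `k ≠ ga j, gb j`: `vx d0 + vy d1 = d5 (vx fx + vy fy) ≥ 100 d5` (`hT3`) and the rest is at least
`- 378 * 10^20 * 113 d5 - 6 * 3 d5`. If `k = ga j` or `gb j`: (GAP), `ww j d = 0`, `pp j d = d5 FF`, `el j d = 3 d5`.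
Since `L j d ≤ 10^60 = L k d` we get `k = j`. -/
def StLA : Prop :=
  ∀ (K : Type) [Field K] [LinearOrder K] [IsStrictOrderedRing K] (d : Fin 6 → K),
    Pool.Agent.Helper4.CD.IsCircuit (cc K) d → Feas d → (∃ k < 64, L k d = 10 ^ 60) →
    ∃ j, S1 j d ∧ ∀ k < 64, L k d = 10 ^ 60 → k = j

/-- (B1M) Step B1, members. Uses (TRA), (GAP), (BDP), (BDD). Write `z' = z + d`. At `z`: `θ = z5`, `|θ - 1| ≤ 10^{-14}`,
`pp = θ F`, `ww = 0`, `el = 3 θ`. `nn d ≤ 230`, `mm d ≤ 7`. `pp' < .49 F`, so `10^40 |ww'| ≤ 10^20 * .49 F + 3.1`, and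
`ww d = ww'`, `pp d = pp' - θ F ≤ -.5099 F`. Non-gap `k`: (TRA): `10^32 |pp d| ≤ 10^36 |ww d| + 7`, impossible. Gap `k`:
(BDD) `10^40 |ww d| = |10^20 pp d - el d| ≥ 10^20 * .5099 F - 7 > 10^20 * .49 F + 3.1`. -/
def StB1M : Prop :=
  ∀ (K : Type) [Field K] [LinearOrder K] [IsStrictOrderedRing K] (j : ℕ) (z d : Fin 6 → K), S1 j z →
    Feas (z + d) → L j d = 0 → 100 * pp j (z + d) < 49 * FF K j → ∀ k < 66, k ≠ j → ¬ Mem k d

/-- (B1Y) Step B1, the row `Y`. Uses (BDP), (BDD). With `z' = z + d` and `b` = sign of `fy`, `φ = |fy|`, `s_k = b v_k`: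
`b (d1 - S(d))` where `S(d) = d2 + 3 d3 + 9 d4`; `F d1 = fy pp d + fx ww d` so `b d1 ≤ -.5099 φ + 10^{-10}`, and
`v_k d_k = v_k z'_k - θ ∈ [-2 - 10^{-10}, 10^{-10}]`. `φ = 37 + 2 pos`, `pos` = sum of the weights `1, 3, 9` with `s_k = 1`;
`b S(d) ≥ -2 pos - 10^{-8}`; so `b (d1 - S(d)) ≤ -18.8 + .99 pos ≤ -5`, but `MY` says `|d1 - S(d)| = 50 |d5| ≤ 10^{-10}`
by (BDD). In Lean: 32 sign cases by `hT0`, `linarith` in each. -/
def StB1Y : Prop :=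
  ∀ (K : Type) [Field K] [LinearOrder K] [IsStrictOrderedRing K] (j : ℕ) (z d : Fin 6 → K), S1 j z →
    Feas (z + d) → L j d = 0 → 100 * pp j (z + d) < 49 * FF K j → ¬ MY d

/-- (B2) Step B2. Uses (TRA), (BDP). If `k ≠ ga j, gb j` then (TRA) for the position `z'` (`L k z' = L j z'`):
`10^32 |pp'| ≤ 10^36 |ww'| + mm' ≤ 10^16 (|pp'| + 4) + 4`, against `pp' ≥ .49 F ≥ 1800`. -/
def StB2 : Prop :=
  ∀ (K : Type) [Field K] [LinearOrder K] [IsStrictOrderedRing K] (j : ℕ) (z : Fin 6 → K), 32 ≤ j → j < 64 →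
    Feas z → L j z = 10 ^ 60 → 49 * FF K j ≤ 100 * pp j z → ∀ k < 64, k ≠ j → L k z = 10 ^ 60 → k = ga j ∨ k = gb j

/-- (B3) Step B3. Uses (CRA), (BDP), (BDD). At `z' = z + d` gap `h` is tight, so `10^40 |ww'| = 10^20 pp' - el' ≥
10^20 * 1800`; `ww d = ww'`. If `{k, l} = {ga j, gb j}` then `ww d = 0` (BDD). Else (CRA): `10^30 nn d ≤ mm d ≤ 7` and
`|ww d| ≤ 63 nn d`. -/
def StB3 : Prop :=
  ∀ (K : Type) [Field K] [LinearOrder K] [IsStrictOrderedRing K] (j h : ℕ) (z d : Fin 6 → K), S1 j z →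
    Feas (z + d) → L j d = 0 → 49 * FF K j ≤ 100 * pp j (z + d) → (h = ga j ∨ h = gb j) → L h (z + d) = 10 ^ 60 →
    ∀ k < 66, k ≠ j → ∀ l < 66, l ≠ j → k ≠ l → Mem k d → Mem l d → False

/-- (B4) Step B4. Uses (TRA), (BDP), (BDD). `z' = z + d`, `10^40 |ww d| = 10^20 pp' - el'`, `pp' = θ F + pp d`.
GAP member `k`: `|10^20 pp d - el d| = 10^40 |ww d| = 10^20 (θ F + pp d) - el'`, so `pp d ≤ -.4999 F` and
`b d1 ≤ -.4998 φ` (`b` = sign of `fy`, `φ = |fy| ≥ 37`), but `|d1 - S(d)| = 50 |d5|` and `|d_c| = |d5|` for the two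
`c ≠ a` (`|d5| ≤ 10^{-13}` by (BDD)), so `w_a |d_a| ≥ 18.45` with the weight `w_a ∈ {1, 3, 9}`, while
`|d_a| ≤ z5 + z'5 ≤ 2 + 10^{-10}`: contradiction. NON-GAP: (TRA): `|pp d| ≤ 10^4 |ww d| + 10^{-31}`,
`|ww d| ≤ 10^{-20} * 7300`, so `|d1| ≤ 10^{-12}` (`F d1 = fy pp d + fx ww d`) and
`w_a |d_a| ≤ |d1| + 62 |d5| ≤ 10^{-10}`. -/
def StB4 : Prop :=
  ∀ (K : Type) [Field K] [LinearOrder K] [IsStrictOrderedRing K] (j h : ℕ) (z d : Fin 6 → K), S1 j z →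
    Feas (z + d) → L j d = 0 → 49 * FF K j ≤ 100 * pp j (z + d) → (h = ga j ∨ h = gb j) → L h (z + d) = 10 ^ 60 →
    ∀ k < 66, k ≠ j → Mem k d → MY d → ∀ a : Fin 6, (a = 2 ∨ a = 3 ∨ a = 4) →
    (∀ c : Fin 6, (c = 2 ∨ c = 3 ∨ c = 4) → c ≠ a → MZ c d) → 10 ^ 8 * |d a| ≤ 1

/-- (LB) Lemma B, second step. Uses (RF), (B1M), (B1Y), (B2), (B3), (B4), (BDP), (BDD). Proof. If
`100 pp' < 49 F`: no member and not `MY`, and (RF) with `k0 = 66` gives a contradiction. So `49 F ≤ 100 pp'`; (B2) gives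
`k = ga j` or `gb j`. By (B3) at most one member vanishes: there is `k0` with `∀ k < 66, k ≠ j → Mem k d → k = k0` (take a
member if there is one, else `66`). For each `a = 2, 3, 4`: if `MZ a d` then `|d a| = |d 5| ≤ 10^{-13}`; otherwise (RF)
gives the member `k0`, `MY d` and `MZ c d` for `c ≠ a`, and (B4) gives `|d a| ≤ 10^{-8}`. Finally
`|v z'_a - 1| ≤ |θ - 1| + |d a|`. -/
def StLB : Prop :=
  ∀ (K : Type) [Field K] [LinearOrder K] [IsStrictOrderedRing K] (j k : ℕ) (z d : Fin 6 → K), S1 j z →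
    Pool.Agent.Helper4.CD.IsCircuit (cc K) d → Feas (z + d) → L j d = 0 → k < 64 → k ≠ j →
    L k (z + d) = 10 ^ 60 → S2 j k (z + d)

/-- (C1) Step C1 (for a position). Uses (TRA), (BDP), (GAP). `h` is a gap row tight at `z`, `k ≠ j, h` is another tight
V-row. If `k` is the other gap row: (GAP) twice gives `ww = 0`, `10^20 pp = el ≤ 3.1`. Otherwise (TRA):
`10^32 |pp| ≤ 10^36 |ww| + mm`, `10^40 |ww| = 10^20 pp - el`, so `|pp| ≤ 4 * 10^{-32}`. -/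
def StC1 : Prop :=
  ∀ (K : Type) [Field K] [LinearOrder K] [IsStrictOrderedRing K] (j h : ℕ) (z : Fin 6 → K), 32 ≤ j → j < 64 →
    (h = ga j ∨ h = gb j) → Feas z → L j z = 10 ^ 60 → L h z = 10 ^ 60 → ∀ k < 64, k ≠ j → k ≠ h →
    L k z = 10 ^ 60 → 10 ^ 15 * |pp j z| ≤ 1 ∧ (k ≠ ga j → k ≠ gb j → 10 ^ 31 * |pp j z| ≤ 1)

/-- (C2M) Step C2, members. Uses (TRA), (BDP), (BDD). `pp d = pp' - pp ≤ 10^{-15} - .49 F`, `nn d ≤ 240`, `mm d ≤ 7`,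
`10^40 |ww d| = |10^20 pp d - el d|` (BDD). `l` the other gap row: `10^20 pp d = el d`, impossible. Otherwise (TRA):
`10^32 |pp d| ≤ 10^36 |ww d| + mm d ≤ 10^16 |pp d| + 8`, impossible. -/
def StC2M : Prop :=
  ∀ (K : Type) [Field K] [LinearOrder K] [IsStrictOrderedRing K] (j h : ℕ) (z d : Fin 6 → K), S2 j h z →
    Feas (z + d) → L j d = 0 → L h d = 0 → 10 ^ 15 * |pp j (z + d)| ≤ 1 → ∀ l < 66, l ≠ j → l ≠ h → ¬ Mem l d

/-- (C2Y) Step C2, the row `Y`. Uses (BDP), (BDD). With `b` = sign of `fy`, `φ = |fy| = 37 + 2 pos`: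
`b d1 ≤ -.4899 φ + 10^{-10}`, `v_k d_k = v_k z'_k - v_k z_k ∈ [-2 - 3 * 10^{-6}, 3 * 10^{-6}]`, so
`b (d1 - S(d)) ≤ -18.1 + 1.03 pos + 10^{-4} ≤ -4`, but `|d1 - S(d)| = 50 |d5| ≤ 10^{-10}`. 32 sign cases by `hT0`. -/
def StC2Y : Prop :=
  ∀ (K : Type) [Field K] [LinearOrder K] [IsStrictOrderedRing K] (j h : ℕ) (z d : Fin 6 → K), S2 j h z →
    Feas (z + d) → L j d = 0 → L h d = 0 → 10 ^ 15 * |pp j (z + d)| ≤ 1 → ¬ MY d

/-- (LC) Lemma C, third step. Uses (RC), (C1), (C2M), (C2Y), (BDP), (BDD). `k ≠ j, h` since rows `j, h` are tight at `z`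
and `L k z < 10^60`. (C1) gives `pp'` tiny, (C2M), (C2Y) and (RC) give `MZ 2, MZ 3, MZ 4`, so `|d a| = |d 5| ≤ 10^{-13}`
and `|v z'_a - 1| ≤ 10^{-6} + 10^{-13}`. So `el' ≥ 2.9`, `10^20 pp' ≥ el'` (BDP), hence by (C1) `k` is a gap row, so
`{h, k} = {ga j, gb j}`. -/
def StLC : Prop :=
  ∀ (K : Type) [Field K] [LinearOrder K] [IsStrictOrderedRing K] (j h k : ℕ) (z d : Fin 6 → K), S2 j h z →
    Pool.Agent.Helper4.CD.IsCircuit (cc K) d → Feas (z + d) → L j d = 0 → L h d = 0 → k < 64 →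
    L k z < 10 ^ 60 → L k (z + d) = 10 ^ 60 →
    S3 j (z + d) ∧ ((h = ga j ∧ k = gb j) ∨ (h = gb j ∧ k = ga j))

/-- (D1) Uses (TRA), (BDP), (BDD). `z' = z + d`: `ww' = 0`, `10^20 pp' = el'` (difference and position); `k ≠ j, ga j,
gb j` since `L k z < 10^60`. (TRA) for the position `z'`: `10^32 |pp'| ≤ mm' ≤ 3.1`, so `|el'| ≤ 10^{-11}`, and
`el z ≥ 3 - 3 * 10^{-5}`: first claim. Second: (TRA) for `d`: `10^32 |pp d| ≤ mm d ≤ 7`, `|el d| = 10^20 |pp d|`. -/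
def StD1 : Prop :=
  ∀ (K : Type) [Field K] [LinearOrder K] [IsStrictOrderedRing K] (j : ℕ) (z d : Fin 6 → K), S3 j z →
    Feas (z + d) → L j d = 0 → L (ga j) d = 0 → L (gb j) d = 0 → ∀ k < 64, L k z < 10 ^ 60 → L k (z + d) = 10 ^ 60 →
    el j d ≤ -(2999 / 1000) ∧ ∀ l < 66, l ≠ j → l ≠ ga j → l ≠ gb j → ¬ Mem l d

/-- (D2) Uses (BDP), (BDD). `|d a| = |d b| = |d 5| ≤ 10^{-13}`, and for the third index `c` (with sign `v_c`)
`v_c d_c ≥ -z'5 - 1 - 10^{-5} ≥ -2.1`. So `el d ≥ -2.2`. -/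
def StD2 : Prop :=
  ∀ (K : Type) [Field K] [LinearOrder K] [IsStrictOrderedRing K] (j : ℕ) (z d : Fin 6 → K), S3 j z →
    Feas (z + d) → L j d = 0 → el j d ≤ -(2999 / 1000) → ∀ a b : Fin 6, (a = 2 ∨ a = 3 ∨ a = 4) →
    (b = 2 ∨ b = 3 ∨ b = 4) → a ≠ b → MZ a d → MZ b d → False

/-- (D3) Uses (BDP), (BDD). `ww d = 0`, `10^20 pp d = el d`, so `|d1| ≤ 10^{-15}`. `|d a| = |d 5| ≤ 10^{-13}`. `MY`:
`|d1 - (d2 + 3 d3 + 9 d4)| = 50 |d5| ≤ 10^{-11}`. The other two indices `b < c` have weights with `w_c ≥ 3 w_b`, so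
`|d_c| ≤ |d_b| / 3 + 10^{-9}`, `|d_b| ≤ 2 + 10^{-4}` (as `v_b d_b = v_b z'_b - v_b z_b ∈ [-2 - 10^{-4}, 10^{-4}]`), hence
`el d ≥ -(2 + 2/3 + 10^{-3})`. -/
def StD3 : Prop :=
  ∀ (K : Type) [Field K] [LinearOrder K] [IsStrictOrderedRing K] (j : ℕ) (z d : Fin 6 → K), S3 j z →
    Feas (z + d) → L j d = 0 → L (ga j) d = 0 → L (gb j) d = 0 → el j d ≤ -(2999 / 1000) → ∀ a : Fin 6,
    (a = 2 ∨ a = 3 ∨ a = 4) → MY d → MZ a d → False

/-- (LD) Lemma D, there is no fourth step. Uses (RD), (D1), (D2), (D3): two of `MY, MZ 2, MZ 3, MZ 4` hold. -/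
def StLD : Prop :=
  ∀ (K : Type) [Field K] [LinearOrder K] [IsStrictOrderedRing K] (j k : ℕ) (z d : Fin 6 → K), S3 j z →
    Pool.Agent.Helper4.CD.IsCircuit (cc K) d → Feas (z + d) → L j d = 0 → L (ga j) d = 0 → L (gb j) d = 0 → k < 64 →
    L k z < 10 ^ 60 → L k (z + d) = 10 ^ 60 → False

/-- (MAIN) Uses (NEAR), (POL), (LA), (LB), (LC), (LD). Proof. Otherwise there are `n ≤ 6` and a `StrongWalk` `z, h` from
`0` to `vv`. `n ≠ 0` since `0 ≠ vv`. Row `h i` is tight at `z n = vv`, so it is a V-row `k_i < 64` (U-rows are positive at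
`vv`). Every `z i` is `Feas` (POL). Steps: `z (i+1) = z i + α • g`, `α • g` is again a circuit (`d`). Rows `h l`, `l < i`,
are tight at `z i` and `z (i+1)`, so `L (k_l) d = 0`. (LA): `S1 j (z 1)`, `k_0 = j`; `z 1 ≠ vv` (coordinate `2` is
`z5 * v1` with `z5 ≠ 0`), so `1 < n`. (LB): `S2 j k_1 (z 2)`, where `k_1 ≠ j` since `L k_1 (z 1) < 10^60`;
`z 2 ≠ vv`. (LC): `S3 j (z 3)` and `{k_1, k_2} = {ga j, gb j}`; `z 3 ≠ vv`; so `3 < n` and (LD) is a contradiction. -/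
def StMAIN : Prop :=
  ∀ (K : Type) [Field K] [LinearOrder K] [IsStrictOrderedRing K], ¬ Pool.Agent.Helper4.CD.NearBound K

end Pool.Agent.Helper51.CX
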