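import Pool.Agent.Helper51.CX.Data

set_option autoImplicit false

namespace Pool.Agent.Helper51.CX

/-- (T0) signs. -/
theorem hT0 : ∀ j < 64, 32 ≤ j → (fx j = 50 ∨ fx j = -50) ∧ (v1 j = 1 ∨ v1 j = -1) ∧ (v2 j = 1 ∨ v2 j = -1) ∧
    (v3 j = 1 ∨ v3 j = -1) ∧ (fy j = 50 + (v1 j + 3 * v2 j + 9 * v3 j) ∨ fy j = -50 + (v1 j + 3 * v2 j + 9 * v3 j)) := by
  decide +kernel

/-- (T0) all sign patterns occur. -/
theorem hT0' : ∀ a ∈ [(1 : ℤ), -1], ∀ b ∈ [(1 : ℤ), -1], ∀ c ∈ [(1 : ℤ), -1], ∀ d ∈ [(1 : ℤ), -1],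
    ∀ e ∈ [(1 : ℤ), -1], ∃ j < 64, 32 ≤ j ∧ fx j = 50 * a ∧ fy j = 50 * b + (c + 3 * d + 9 * e) ∧ v1 j = c ∧
      v2 j = d ∧ v3 j = e := by
  decide +kernel

/-- (T1) the gap rows next to a narrow row. -/
theorem hT1 : ∀ j < 64, 32 ≤ j → qx j - qx (ga j) = -(la j * fy j) ∧ qy j - qy (ga j) = la j * fx j ∧
    qx j - qx (gb j) = la j * fy j ∧ qy j - qy (gb j) = -(la j * fx j) ∧ 1 ≤ la j ∧ la j ≤ 3 ∧ ga j < 32 ∧
      gb j < 32 ∧ ga j ≠ gb j := by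
  decide +kernel

/-- (T2) bounds. -/
theorem hT2 : ∀ k < 64, |qx k| ≤ 1707 ∧ |qy k| ≤ 1707 ∧ |fx k| ≤ 50 ∧ |fy k| ≤ 63 ∧ |v1 k| ≤ 1 ∧ |v2 k| ≤ 1 ∧
    |v3 k| ≤ 1 ∧ 0 ≤ la k ∧ la k ≤ 3 := by
  decide +kernel

/-- (T2) gap rows have no other part. -/
theorem hT2' : ∀ k < 32, fx k = 0 ∧ fy k = 0 ∧ v1 k = 0 ∧ v2 k = 0 ∧ v3 k = 0 ∧ la k = 0 := by
  decide +kernel

/-- Check of (T3). -/
def chk3 (j k : ℕ) : Bool :=
  decide (j < 32) || decide (k = j) || decide (k = ga j) || decide (k = gb j) ||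
    decide (100 ≤ vx j k * fx j + vy j k * fy j)

theorem chk3_all : ∀ j < 64, ∀ k < 65, chk3 j k = true := by
  decide +kernel

/-- (T3) for rows and the form `s`. -/
theorem hT3 (j : ℕ) (hj : j < 64) (hj' : 32 ≤ j) (k : ℕ) (hk : k < 65) (h1 : k ≠ j) (h2 : k ≠ ga j)
    (h3 : k ≠ gb j) : 100 ≤ vx j k * fx j + vy j k * fy j := by
  have h := chk3_all j hj k hk
  unfold chk3 at h
  simp only [Bool.or_eq_true, decide_eq_true_eq] at h
  rcases h with (((h | h) | h) | h) | h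
  · omega
  · exact absurd h h1
  · exact absurd h h2
  · exact absurd h h3
  · exact h

/-- Check of (T4). -/
def chk4 (j k l : ℕ) : Bool :=
  decide (j < 32) || decide (k = j) || decide (l = j) || decide (k = ga j ∧ l = gb j) ||
    decide (k = gb j ∧ l = ga j) || decide (vx j k * vy j l - vy j k * vx j l ≠ 0)

theorem chk4_all : ∀ j < 64, ∀ k < 66, ∀ l < k, chk4 j k l = true := by
  decide +kernel

/-- (T4) no two members are parallel. -/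
theorem hT4' (j : ℕ) (hj : j < 64) (hj' : 32 ≤ j) (k : ℕ) (hk : k < 66) (h1 : k ≠ j) (l : ℕ) (hl : l < k)
    (h2 : l ≠ j) (h3 : ¬ (k = ga j ∧ l = gb j)) (h4 : ¬ (k = gb j ∧ l = ga j)) :
    vx j k * vy j l - vy j k * vx j l ≠ 0 := by
  have h := chk4_all j hj k hk l hl
  unfold chk4 at h
  simp only [Bool.or_eq_true, decide_eq_true_eq] at h
  rcases h with ((((h | h) | h) | h) | h) | h
  · omega
  · exact absurd h h1
  · exact absurd h h2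
  · exact absurd h h3
  · exact absurd h h4
  · exact h

/-- (T4) no two members are parallel. -/
theorem hT4 (j : ℕ) (hj : j < 64) (hj' : 32 ≤ j) (k : ℕ) (hk : k < 66) (h1 : k ≠ j) (l : ℕ) (hl : l < 66)
    (h2 : l ≠ j) (hkl : k ≠ l) (h3 : ¬ (k = ga j ∧ l = gb j)) (h4 : ¬ (k = gb j ∧ l = ga j)) :
    vx j k * vy j l - vy j k * vx j l ≠ 0 := by
  rcases lt_or_gt_of_ne hkl with h | h
  · have h5 := hT4' j hj hj' l hl h2 k h h1 (fun h6 => h4 ⟨h6.2, h6.1⟩) (fun h6 => h3 ⟨h6.2, h6.1⟩)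
    intro h6
    apply h5
    linarith
  · exact hT4' j hj hj' k hk h1 l h h2 h3 h4

end Pool.Agent.Helper51.CX
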